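import Pool.Agent.Helper47.FLG.Alg

set_option autoImplicit false

namespace Pool.Agent.Helper47.FLG

open Finset Pool.Agent.Helper47.RFn

theorem gq_sumU {n : ℕ} (S : Finset (Fin n)) (al a : Fin n → ℝ) :
    (∑ p, al p * (if p ∈ S then -(a p / al p) else 0) ^ 2)
      + 2 * ∑ p, a p * (if p ∈ S then -(a p / al p) else 0) = -∑ p ∈ S, a p ^ 2 / al p := by
  rw [mul_sum, ← sum_add_distrib, ← sum_neg_distrib, ← sum_subset (subset_univ S)]
  · refine sum_congr rfl (fun p hp => ?_)
    rw [if_pos hp]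
    by_cases h : al p = 0
    · rw [h]; simp
    · field_simp; ring
  · intro p _ hp
    rw [if_neg hp]; ring

theorem gq_sumV {n : ℕ} (S : Finset (Fin n)) (al a : Fin n → ℝ) :
    4 * (∑ p, al p * (if p ∈ S then a p / al p else 0) ^ 2)
      - 8 * ∑ p, a p * (if p ∈ S then a p / al p else 0) = -(4 * ∑ p ∈ S, a p ^ 2 / al p) := by
  rw [mul_sum, mul_sum, mul_sum, ← sum_sub_distrib, ← sum_neg_distrib,
    ← sum_subset (subset_univ S)]
  · refine sum_congr rfl (fun p hp => ?_)
    rw [if_pos hp]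
    by_cases h : al p = 0
    · rw [h]; simp
    · field_simp; ring
  · intro p _ hp
    rw [if_neg hp]; ring

theorem g_GQ (hSV2 : G_SV2) (_hFO : G_FO) : G_GQ := by
  intro n R i0 i1 i2 r hF q hq
  have hS := hSV2 n R i0 i1 i2 r hF q hq
  refine ⟨?_, ?_, ?_⟩
  · have h := hS (fun p => if p ∈ (univ.erase i0).erase i1 then
        -((2 * R i0 p i1 q - R i0 q i1 p) / (4 - r p)) else 0)
      (fun p => if p ∈ (univ.erase i0).erase i2 then
        (2 * R i0 p i2 q - R i0 q i2 p) / (r p - 1) else 0)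
      (if_neg (by simp)) (if_neg (by simp)) (if_neg (by simp)) (if_neg (by simp))
    have e1 := gq_sumU ((univ.erase i0).erase i1) (fun p => 4 - r p)
      (fun p => 2 * R i0 p i1 q - R i0 q i1 p)
    have e2 := gq_sumV ((univ.erase i0).erase i2) (fun p => r p - 1)
      (fun p => 2 * R i0 p i2 q - R i0 q i2 p)
    unfold Gn
    linarith
  · intro p hp0 hp1 hr
    by_contra hne
    have hne' : 2 * R i0 p i1 q - R i0 q i1 p ≠ 0 := sub_ne_zero.2 hne
    have h := hS (fun p' => if p' = p then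
        -((Wt R i1 i2 q + 1) / (2 * (2 * R i0 p i1 q - R i0 q i1 p))) else 0) (fun _ => 0)
      (if_neg (Ne.symm hp0)) (if_neg (Ne.symm hp1)) rfl rfl
    have e1 : ∑ p', (4 - r p') * (if p' = p then
        -((Wt R i1 i2 q + 1) / (2 * (2 * R i0 p i1 q - R i0 q i1 p))) else 0) ^ 2 = 0 := by
      refine sum_eq_zero (fun p' _ => ?_)
      by_cases h' : p' = p
      · rw [h', hr]; ring
      · rw [if_neg h']; ring
    have e2 : ∑ p', (2 * R i0 p' i1 q - R i0 q i1 p') * (if p' = p then
        -((Wt R i1 i2 q + 1) / (2 * (2 * R i0 p i1 q - R i0 q i1 p))) else 0)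
        = -((Wt R i1 i2 q + 1) / 2) := by
      rw [sum_eq_single p]
      · rw [if_pos rfl]; field_simp
      · intro p' _ h'; rw [if_neg h', mul_zero]
      · intro h'; exact absurd (mem_univ p) h'
    simp only [e1, e2] at h
    simp at h
    linarith
  · intro p hp0 hp1 hr
    by_contra hne
    have hne' : 2 * R i0 p i2 q - R i0 q i2 p ≠ 0 := sub_ne_zero.2 hne
    have h := hS (fun _ => 0) (fun p' => if p' = p then
        ((Wt R i1 i2 q + 1) / (8 * (2 * R i0 p i2 q - R i0 q i2 p))) else 0)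
      rfl rfl (if_neg (Ne.symm hp0)) (if_neg (Ne.symm hp1))
    have e1 : ∑ p', (r p' - 1) * (if p' = p then
        ((Wt R i1 i2 q + 1) / (8 * (2 * R i0 p i2 q - R i0 q i2 p))) else 0) ^ 2 = 0 := by
      refine sum_eq_zero (fun p' _ => ?_)
      by_cases h' : p' = p
      · rw [h', hr]; ring
      · rw [if_neg h']; ring
    have e2 : ∑ p', (2 * R i0 p' i2 q - R i0 q i2 p') * (if p' = p then
        ((Wt R i1 i2 q + 1) / (8 * (2 * R i0 p i2 q - R i0 q i2 p))) else 0)
        = (Wt R i1 i2 q + 1) / 8 := by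
      rw [sum_eq_single p]
      · rw [if_pos rfl]; field_simp
      · intro p' _ h'; rw [if_neg h', mul_zero]
      · intro h'; exact absurd (mem_univ p) h'
    simp only [e1, e2] at h
    simp at h
    linarith

end Pool.Agent.Helper47.FLG
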